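import Pool.Agent.R887.GapC

/-!
Normal projective varieties all of whose pluricanonical forms have no zeros: the plurigenera, the
Kodaira dimension and the numerical dimension.
-/

set_option autoImplicit false
set_option linter.overlappingInstances false
set_option linter.unusedSectionVars false

open FF Module MvPolynomial Pool.Agent.W602.GT Pool.Agent.W603.LV Pool.Agent.W619.PQ
open Pool.Agent.Y172 Pool.Agent.Y191 Pool.Agent.R887
open scoped IntermediateField

namespace Pool.Agent.U379

section

variable {K : Type} [Field K] [Algebra ℂ K] {N : ℕ} {y : Fin (N + 1) → K} {n : ℕ}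

/-- a function without zeros and poles on a normal projective variety is constant -/
theorem const_of_unit (hy : NormalModel y) (hn : Algebra.trdeg ℂ K = n) (hn0 : 0 < n) {f : K}
    (hf0 : f ≠ 0) (hf : ∀ P, IsPrimeDivisor y P → P.ord f = 0) :
    ∃ c : ℂ, algebraMap ℂ K c = f := by
  classical
  have hess := hy.ess
  have hall : ∀ Q : Place ℂ K, Q.ord f = 0 := fun Q =>
    unit_of_through hy hf0 fun P hP _ => hf P hP
  by_contra hcon
  have htr0 : Transcendental ℂ f := by
    intro halg
    have hint : IsIntegral ℂ f := halg.isIntegral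
    have h1 := IsAlgClosed.degree_eq_one_of_irreducible ℂ (minpoly.irreducible hint)
    obtain ⟨c, hc⟩ := minpoly.mem_range_of_degree_eq_one ℂ f h1
    exact hcon ⟨c, hc⟩
  have hind : AlgebraicIndependent ℂ (fun _ : Fin 1 => f) := by
    rw [algebraicIndependent_unique_type_iff]
    exact htr0
  obtain ⟨u, -, hd⟩ := exists_complete hy hn (j := 1) (by omega) hind
  have hcard : Nat.card (Fin (n - 1) ⊕ Fin 1) = n := by
    rw [Nat.card_eq_fintype_card, Fintype.card_sum, Fintype.card_fin, Fintype.card_fin]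
    omega
  have hbas := basis_of_dg (k := ℂ) (w := Sum.elim u fun _ : Fin 1 => f) (by rw [hn, hcard])
    hd.ne'
  have htr : Transcendental (IntermediateField.adjoin ℂ (Set.range u)) f := by
    have h1 := transc_of_basis (k := ℂ) (K := K) hbas.1 (s := Set.range Sum.inl)
      (i := Sum.inr 0) (by simp)
    have h2 : (Sum.elim u fun _ : Fin 1 => f) '' Set.range Sum.inl = Set.range u := by
      rw [← Set.range_comp]
      rfl
    rw [h2] at h1
    exact h1
  have hd2 : 0 < degreeOver u (fun _ : Fin 1 => f) := by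
    rw [degreeOver_eq]
    exact hd
  rw [degOver_simple] at hd2
  have hfin : FiniteDimensional
      (IntermediateField.adjoin (IntermediateField.adjoin ℂ (Set.range u)) {f}) K :=
    FiniteDimensional.of_finrank_pos hd2
  have : IsFF (IntermediateField.adjoin ℂ (Set.range u)) K := IsFF.of_finite htr hfin
  obtain ⟨S, hS, hS2⟩ := poles (k := IntermediateField.adjoin ℂ (Set.range u)) (K := K) htr
  obtain ⟨w, hw⟩ : S.Nonempty := by
    rw [Finset.nonempty_iff_ne_empty]
    rintro rfl
    rw [Finset.sum_empty] at hS2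
    omega
  have hw2 := (hS w).1 hw
  have h3 := hall (dnp w)
  have h4 : (dnp w).ord f = w.ord f := rfl
  omega

/-- a set of natural numbers which is closed under sums and differences -/
theorem exists_gen {S : ℕ → Prop} (h0 : S 0) (hadd : ∀ a b, S a → S b → S (a + b))
    (hsub : ∀ a b, S a → S (a + b) → S b) : ∃ d : ℕ, ∀ m, S m ↔ d ∣ m := by
  classical
  by_cases h : ∃ m, 1 ≤ m ∧ S m
  · obtain ⟨h1, h2⟩ := Nat.find_spec h
    have h3 : ∀ q, S (q * Nat.find h) := by
      intro q
      induction q with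
      | zero =>
        rw [zero_mul]
        exact h0
      | succ q ih =>
        rw [add_mul, one_mul]
        exact hadd _ _ ih h2
    refine ⟨Nat.find h, fun m => ⟨fun hm => ?_, ?_⟩⟩
    · have h4 : S (m % Nat.find h) := by
        refine hsub (m / Nat.find h * Nat.find h) _ (h3 _) ?_
        rwa [mul_comm, Nat.div_add_mod]
      by_contra hd
      have h5 : 1 ≤ m % Nat.find h := Nat.pos_of_ne_zero fun h6 => hd (Nat.dvd_of_mod_eq_zero h6)
      have h7 := Nat.find_min' h ⟨h5, h4⟩
      have h8 := Nat.mod_lt m (show 0 < Nat.find h by omega)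
      omega
    · rintro ⟨q, rfl⟩
      rw [mul_comm]
      exact h3 q
  · refine ⟨0, fun m => ?_⟩
    rw [zero_dvd_iff]
    constructor
    · intro hm
      by_contra hm0
      exact h ⟨m, Nat.pos_of_ne_zero hm0, hm⟩
    · rintro rfl
      exact h0

theorem zero_eff : Effective y (0 : Place ℂ K → ℚ) :=
  ⟨fun _ _ => le_rfl, Set.finite_empty.subset (by rintro P ⟨-, h⟩; exact h rfl)⟩

/-- **The plurigenera of a variety without vanishing pluricanonical forms.** -/
theorem plurigenera (hy : NormalModel y) (hn : Algebra.trdeg ℂ K = n) (hn0 : 0 < n)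
    (H : ∀ m : ℕ, 1 ≤ m → ∀ η : (Fin n → Derivation ℂ K K) → K,
      IsSection y n m 0 η → η ≠ 0 → ∀ P, IsPrimeDivisor y P → OrdEq P η 0) :
    ∃ d : ℕ, (∀ m : ℕ, 1 ≤ m → h0 y n m 0 = if d ∣ m then 1 else 0) ∧
      (d = 0 → kodairaDim y n 0 = ⊥) ∧
      (d ≠ 0 → kodairaDim y n 0 = ((0 : ℕ) : WithBot ℕ) ∧
        ∀ A, Effective y A → Integral y A → numericalDim y n 0 A = ((0 : ℕ) : EReal)) := by
  classical
  have hess := hy.ess
  obtain ⟨x, E, hx, hE⟩ := exists_crd hn (k := ℂ) (K := K)
  have hfr : IsFrame E := fun F => ⟨fun j => F (x j),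
    (Pool.Agent.W73.PG.PULL.expand x hx E hE F).symm⟩
  obtain ⟨c, -, hc⟩ := exists_ordc hy hn hx hE
  -- the value of a form
  have hval : ∀ m : ℕ, 1 ≤ m → ∀ η : (Fin n → Derivation ℂ K K) → K,
      IsSection y n m 0 η → η ≠ 0 → η E ≠ 0 ∧ ∀ P, IsPrimeDivisor y P →
        (m : ℚ) * c P + P.ord (η E) = 0 := by
    intro m hm η hη hη0
    refine ⟨fun h => hη0 (pluri_zero hfr hη.1 h), fun P hP => ?_⟩
    exact (ordEq_val hfr hc hP hη.1 (H m hm η hη hη0 P hP)).2
  have hsec : ∀ (m : ℕ) (D : Place ℂ K → ℚ) (g : K), g ≠ 0 →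
      (∀ P, IsPrimeDivisor y P → -(D P) ≤ (m : ℚ) * c P + P.ord g) →
      IsSection y n m D (frm x m g) := by
    intro m D g hg h
    refine ⟨frm_pluri x m g, fun P hP => ?_⟩
    rw [hc P hP m _ (frm_pluri x m g), frm_self hE]
    exact Or.inr (h P hP)
  have hsec' : ∀ (m : ℕ) (D : Place ℂ K → ℚ) (ω : (Fin n → Derivation ℂ K K) → K),
      IsSection y n m D ω → ω E ≠ 0 → ∀ P, IsPrimeDivisor y P →
        -(D P) ≤ (m : ℚ) * c P + P.ord (ω E) := by
    intro m D ω hω h0 P hP
    exact ((hc P hP m ω hω.1 _).1 (hω.2 P hP)).resolve_left h0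
  -- the set of the degrees
  obtain ⟨d, hd⟩ := exists_gen (S := fun m => ∃ g : K, g ≠ 0 ∧ ∀ P, IsPrimeDivisor y P →
      (m : ℚ) * c P + P.ord g = 0) ⟨1, one_ne_zero, fun P _ => by
        rw [P.ord_one]; push_cast; ring⟩ (by
      rintro a b ⟨g, hg, h1⟩ ⟨g', hg', h2⟩
      refine ⟨g * g', mul_ne_zero hg hg', fun P hP => ?_⟩
      rw [P.ord_mul hg hg']
      have := h1 P hP
      have := h2 P hP
      push_cast
      linarith) (by
      rintro a b ⟨g, hg, h1⟩ ⟨g', hg', h2⟩
      refine ⟨g' / g, div_ne_zero hg' hg, fun P hP => ?_⟩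
      rw [P.ord_div hg' hg]
      have := h1 P hP
      have := h2 P hP
      push_cast at this ⊢
      linarith)
  have hh0 : ∀ m : ℕ, 1 ≤ m → h0 y n m 0 = if d ∣ m then 1 else 0 := by
    intro m hm
    rw [h0_eq]
    by_cases hdm : d ∣ m
    · rw [if_pos hdm]
      obtain ⟨g, hg, hgP⟩ := (hd m).2 hdm
      have hη : IsSection y n m 0 (frm x m g) := hsec m 0 g hg fun P hP => by
        rw [hgP P hP]
        simp
      refine finrank_eq_one (⟨frm x m g, hη⟩ : secSub y n m 0) (fun h => ?_) fun w => ?_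
      · have h1 : frm x m g E = 0 := by
          have h2 := congrArg Subtype.val h
          change frm x m g = 0 at h2
          rw [h2]
          rfl
        rw [frm_self hE] at h1
        exact hg h1
      · obtain ⟨w, hw⟩ := w
        by_cases hw0 : w = 0
        · refine ⟨0, ?_⟩
          rw [zero_smul]
          exact Subtype.ext hw0.symm
        obtain ⟨h1, h2⟩ := hval m hm w hw hw0
        obtain ⟨a, ha⟩ := const_of_unit hy hn hn0 (f := w E / g) (div_ne_zero h1 hg) (by
          intro P hP
          rw [P.ord_div h1 hg]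
          have h3 := h2 P hP
          have h4 := hgP P hP
          have h5 : ((P.ord (w E) - P.ord g : ℤ) : ℚ) = 0 := by
            push_cast
            linarith
          exact_mod_cast h5)
        refine ⟨a, ?_⟩
        have h6 : a • (⟨frm x m g, hη⟩ : secSub y n m 0) - ⟨w, hw⟩ = 0 := by
          apply Subtype.ext
          refine pluri_zero hfr ((a • (⟨frm x m g, hη⟩ : secSub y n m 0) - ⟨w, hw⟩).2.1) ?_
          change a • frm x m g E - w E = 0
          rw [frm_self hE, Algebra.smul_def, ha, div_mul_cancel₀ _ hg, sub_self]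
        exact sub_eq_zero.1 h6
    · rw [if_neg hdm]
      have hbot : ∀ w ∈ secSub y n m 0, w = 0 := by
        intro w hw
        by_contra hw0
        obtain ⟨h1, h2⟩ := hval m hm w hw hw0
        exact hdm ((hd m).1 ⟨w E, h1, h2⟩)
      have : secSub y n m (0 : Place ℂ K → ℚ) = ⊥ := (Submodule.eq_bot_iff _).2 hbot
      rw [this]
      exact finrank_bot ℂ _
  refine ⟨d, hh0, fun hd0 => ?_, fun hd0 => ?_⟩
  · unfold kodairaDim
    rw [if_pos]
    intro m hm _
    rw [smul_zero, hh0 m hm, if_neg]
    rw [hd0, zero_dvd_iff]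
    omega
  · have hd1 : 1 ≤ d := Nat.pos_of_ne_zero hd0
    obtain ⟨g, hg, hgP⟩ := (hd d).2 dvd_rfl
    have hη : IsSection y n d 0 (frm x d g) := hsec d 0 g hg fun P hP => by
      rw [hgP P hP]
      simp
    refine dims (k := 0) (Δ := 0) zero_eff hfr ?_ (m0 := d) hd1 (ω := fun _ => frm x d g)
      (fun _ => by rw [smul_zero]; exact hη) (E := E) ?_ ?_
    · intro A hA
      obtain ⟨C, hC⟩ := sec_growth hy hn (zero_eff (y := y)) hA E
      refine ⟨C * d ^ n, fun m hm r f hf hω => ?_⟩
      obtain ⟨q, s, hs1, hsd, hqs⟩ : ∃ q s : ℕ, 1 ≤ s ∧ s ≤ d ∧ m = q * d + s := by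
        refine ⟨(m - 1) / d, (m - 1) % d + 1, by omega, Nat.mod_lt _ hd1, ?_⟩
        have h1 := Nat.div_add_mod (m - 1) d
        rw [mul_comm] at h1
        omega
      have hgq : g ^ q ≠ 0 := pow_ne_zero _ hg
      have hlin : LinearIndependent ℂ (fun i => f i / g ^ q) := by
        have h3 := hf.map' (LinearMap.mulLeft ℂ ((g ^ q)⁻¹)) (by
          rw [LinearMap.ker_eq_bot]
          exact fun a b hab => mul_left_cancel₀ (inv_ne_zero hgq) hab)
        have h4 : (fun i => f i / g ^ q) = (LinearMap.mulLeft ℂ ((g ^ q)⁻¹)) ∘ f := by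
          funext i
          change f i / g ^ q = (g ^ q)⁻¹ * f i
          rw [div_eq_mul_inv, mul_comm]
        rw [h4]
        exact h3
      have h5 := hC s hs1 r _ hlin (by
        intro i
        obtain ⟨ω, hω1, hω2⟩ := hω i
        have hfi : f i ≠ 0 := hf.ne_zero i
        refine ⟨frm x s (f i / g ^ q), hsec s _ _ (div_ne_zero hfi hgq) fun P hP => ?_,
          frm_self hE _ _⟩
        have h6 := hsec' m _ ω hω1 (by rw [hω2]; exact hfi) P hP
        rw [hω2] at h6
        rw [P.ord_div hfi hgq, P.ord_pow]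
        have h7 := hgP P hP
        simp only [smul_zero, zero_add] at h6 ⊢
        rw [hqs] at h6
        push_cast at h6 ⊢
        have h8 : (q : ℚ) * (d * c P + P.ord g) = 0 := by rw [h7, mul_zero]
        linarith)
      rw [pow_zero, mul_one]
      exact h5.trans (Nat.mul_le_mul_left _ (Nat.pow_le_pow_left hsd n))
    · rw [frm_self hE]
      exact hg
    · exact algebraicIndependent_empty_type_iff.2 (algebraMap ℂ K).injective

end

end Pool.Agent.U379
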